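import Pool.Agent.Q237.LR.Stm5

/-!
# Project LR, job UNQ: uniqueness of the Green function (helper109)
-/

set_option autoImplicit false

namespace Pool.Agent.Q109.LR5

open MeasureTheory ProbabilityTheory Set Filter Topology H10PL Pool.Agent.Q237.LR2
  Pool.Agent.Q237.LR3 Pool.Agent.Q237.LR4 Pool.Agent.Q237.LR5

variable {d : ℕ} {T0 : (Fin d → ℤ) → (Fin d → ℤ) → ℝ} {κ : (Fin d → ℤ) → ℝ} {ρ0 b : ℝ}

theorem HK_sub (h : Adm T0 κ ρ0 b) (s : Sym2 (Fin d → ℤ) → Bool) (V : (Fin d → ℤ) → ℝ)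
    (u u' : (Fin d → ℤ) → ℂ) (hu : Summable fun y => ‖u y‖ ^ 2)
    (hu' : Summable fun y => ‖u' y‖ ^ 2) (x : Fin d → ℤ) :
    HK T0 κ s V (fun y => u y - u' y) x = HK T0 κ s V u x - HK T0 κ s V u' x := by
  have a1 := (csum (fun w => T0 x w) u (real_part h s _ (sum_re u hu).1 x).1
    (real_part h s _ (sum_re u hu).2 x).1).1
  have a2 := (csum (fun w => T0 x w) u' (real_part h s _ (sum_re u' hu').1 x).1
    (real_part h s _ (sum_re u' hu').2 x).1).1
  have b1 := converge h s u hu x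
  have b2 := converge h s u' hu' x
  unfold HK
  have e1 : ∑' y, (T0 x y : ℂ) * (u y - u' y) =
      ∑' y, (T0 x y : ℂ) * u y - ∑' y, (T0 x y : ℂ) * u' y := by
    rw [← a1.tsum_sub a2]
    exact tsum_congr fun y => by ring
  have e2 : ∑' y, ((sg (s s(x, y)) * κ (x - y) : ℝ) : ℂ) * (u y - u' y) =
      ∑' y, ((sg (s s(x, y)) * κ (x - y) : ℝ) : ℂ) * u y -
        ∑' y, ((sg (s s(x, y)) * κ (x - y) : ℝ) : ℂ) * u' y := by
    rw [← b1.tsum_sub b2]
    exact tsum_congr fun y => by ring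
  rw [e1, e2]
  ring

/-- no nonreal eigenvalues -/
theorem nonreal (h : Adm T0 κ ρ0 b)
    (s : Sym2 (Fin d → ℤ) → Bool) (V : (Fin d → ℤ) → ℝ) (hc : CutOK T0 κ s)
    (z : ℂ) (hzi : z.im ≠ 0) (ψ : (Fin d → ℤ) → ℂ) (hψ : Summable fun y => ‖ψ y‖ ^ 2)
    (hz : ∀ x, HK T0 κ s V ψ x = z * ψ x) : ψ = 0 := by
  obtain ⟨hre, him⟩ := sum_re ψ hψ
  have e1 : ∀ y, (∑' w, Kf T0 κ s y w * (ψ w).re) + V y * (ψ y).re =
      z.re * (ψ y).re - z.im * (ψ y).im := by
    intro y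
    have h1 := congrArg Complex.re (hz y)
    rw [(real_part h s _ hre y).2.2,
      ← (csum (fun w => T0 y w) ψ (real_part h s _ hre y).1 (real_part h s _ him y).1).2.1,
      ← (csum (fun w => sg (s s(y, w)) * κ (y - w)) ψ (real_part h s _ hre y).2.1
        (real_part h s _ him y).2.1).2.1]
    unfold HK at h1
    simpa using h1
  have e2 : ∀ y, (∑' w, Kf T0 κ s y w * (ψ w).im) + V y * (ψ y).im =
      z.re * (ψ y).im + z.im * (ψ y).re := by
    intro y
    have h1 := congrArg Complex.im (hz y)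
    rw [(real_part h s _ him y).2.2,
      ← (csum (fun w => T0 y w) ψ (real_part h s _ hre y).1 (real_part h s _ him y).1).2.2,
      ← (csum (fun w => sg (s s(y, w)) * κ (y - w)) ψ (real_part h s _ hre y).2.1
        (real_part h s _ him y).2.1).2.2]
    unfold HK at h1
    simpa using h1
  funext y
  have h1 := Pool.Agent.Q237.LR.no_nonreal h s hc V z.re z.im hzi _ _ hre him e1 e2 y
  exact Complex.ext h1.1 h1.2

theorem unq : S_UNQ := by
  intro d T0 κ ρ0 b h s hc V z x u u' hz hu hu'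
  have hs : Summable fun y => ‖u y - u' y‖ ^ 2 := by
    refine Summable.of_nonneg_of_le (fun y => sq_nonneg _) (fun y => ?_)
      ((hu.1.mul_left 2).add (hu'.1.mul_left 2))
    have h1 := norm_sub_le (u y) (u' y)
    have h2 : ‖u y - u' y‖ ^ 2 ≤ (‖u y‖ + ‖u' y‖) ^ 2 :=
      pow_le_pow_left₀ (norm_nonneg _) h1 2
    nlinarith [sq_nonneg (‖u y‖ - ‖u' y‖)]
  have h0 := nonreal h s V hc z hz (fun y => u y - u' y) hs (fun y => by
    rw [HK_sub h s V u u' hu.1 hu'.1 y, hu.2 y, hu'.2 y]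
    ring)
  funext y
  exact sub_eq_zero.1 (congrFun h0 y)

end Pool.Agent.Q109.LR5
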